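import Mathlib
import Pool.Agent.Y293.FA.Stm2

/-!
# Good directions of differences (job FA-DIR2)
-/

set_option autoImplicit false

namespace Pool.Agent.Y978.FA

open MeasureTheory Set Filter Topology
open Pool.Agent.Y293.FA
open scoped ENNReal

noncomputable section

/-- the direction of the projection which belongs to `z` -/
def Th (z : ℂ) : ℝ := Complex.arg z + Real.pi / 2

theorem measurable_Th : Measurable Th := Complex.measurable_arg.add_const _

theorem Th_mem (z : ℂ) : Th z ∈ Icc (-(Real.pi / 2)) (3 * Real.pi / 2) := by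
  have h1 := Complex.neg_pi_lt_arg z
  have h2 := Complex.arg_le_pi z
  unfold Th
  constructor <;> linarith

theorem pr_Th (w z : ℂ) : ‖z‖ * pr (Th z) w = (w * (starRingEnd ℂ) z).im := by
  unfold pr Th
  rw [Real.cos_add_pi_div_two, Real.sin_add_pi_div_two, Complex.mul_im, Complex.conj_re,
    Complex.conj_im]
  have h1 := Complex.norm_mul_cos_arg z
  have h2 := Complex.norm_mul_sin_arg z
  linear_combination w.im * h1 - w.re * h2

theorem pr_bound (z : ℂ) (θ : ℝ) : |pr θ z| ≤ ‖z‖ * |θ - Th z| := by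
  have h1 := Complex.norm_mul_cos_arg z
  have h2 := Complex.norm_mul_sin_arg z
  have e : pr θ z = ‖z‖ * (-Real.sin (θ - Th z)) := by
    have h3 : -Real.sin (θ - Th z) = Real.cos (θ - Complex.arg z) := by
      have h4 : θ - Complex.arg z = (θ - Th z) + Real.pi / 2 := by
        unfold Th
        ring
      rw [h4, Real.cos_add_pi_div_two]
    rw [h3, Real.cos_sub]
    unfold pr
    linear_combination -(Real.cos θ * h1) - Real.sin θ * h2
  rw [e, abs_mul, abs_norm, abs_neg]
  exact mul_le_mul_of_nonneg_left (Real.abs_sin_le_abs) (norm_nonneg z)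

/-- the difference of two independent points is not `0` -/
theorem dif_zero (μ : Measure ℂ) [IsProbabilityMeasure μ] {s : ℝ} (hs : 0 < s)
    (hen : en s μ < ⊤) : dif μ {0} = 0 := by
  have hm : Measurable fun p : ℂ × ℂ => edist p.1 p.2 ^ (-s) :=
    (measurable_fst.edist measurable_snd).pow_const _
  have h1 : ∫⁻ p : ℂ × ℂ, edist p.1 p.2 ^ (-s) ∂(μ.prod μ) < ⊤ := by
    rw [lintegral_prod _ hm.aemeasurable]
    exact hen
  have h2 := ae_lt_top hm h1.ne
  unfold dif
  rw [Measure.map_apply (by fun_prop) (measurableSet_singleton 0)]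
  have h3 : ((fun p : ℂ × ℂ => p.1 - p.2) ⁻¹' {0}) ⊆
      {p : ℂ × ℂ | ¬ edist p.1 p.2 ^ (-s) < ⊤} := by
    intro p hp
    rw [mem_preimage, mem_singleton_iff, sub_eq_zero] at hp
    rw [mem_setOf_eq, hp, edist_self, ENNReal.zero_rpow_of_neg (by linarith)]
    exact lt_irrefl _
  exact measure_mono_null h3 (ae_iff.1 h2)

/-- the periodic function is integrable over three periods -/
theorem three_periods {H : ℝ → ℝ≥0∞} (hm : Measurable H)
    (hper : ∀ θ, H (θ + 2 * Real.pi) = H θ)
    (hint : ∫⁻ θ in Ioc 0 (2 * Real.pi), H θ < ⊤) :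
    ∫⁻ θ in Ioc (-(2 * Real.pi)) (4 * Real.pi), H θ < ⊤ := by
  have hpi := Real.pi_pos
  have hshift : ∀ a : ℝ, ∫⁻ θ in Ioc (a + 2 * Real.pi) (a + 2 * Real.pi + 2 * Real.pi), H θ =
      ∫⁻ θ in Ioc a (a + 2 * Real.pi), H θ := by
    intro a
    rw [← lintegral_indicator measurableSet_Ioc, ← lintegral_indicator measurableSet_Ioc,
      ← lintegral_add_right_eq_self (fun θ => (Ioc (a + 2 * Real.pi)
        (a + 2 * Real.pi + 2 * Real.pi)).indicator H θ) (2 * Real.pi)]
    congr 1
    funext θ
    by_cases h : θ ∈ Ioc a (a + 2 * Real.pi)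
    · rw [indicator_of_mem h, indicator_of_mem, hper]
      exact ⟨by linarith [h.1], by linarith [h.2]⟩
    · rw [indicator_of_notMem h, indicator_of_notMem]
      intro h'
      exact h ⟨by linarith [h'.1], by linarith [h'.2]⟩
  have h1 := hshift (-(2 * Real.pi))
  have h2 := hshift 0
  rw [neg_add_cancel, zero_add] at h1
  rw [zero_add] at h2
  have hsub : Ioc (-(2 * Real.pi)) (4 * Real.pi) ⊆ Ioc (-(2 * Real.pi)) 0 ∪
      (Ioc 0 (2 * Real.pi) ∪ Ioc (2 * Real.pi) (2 * Real.pi + 2 * Real.pi)) := by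
    intro θ hθ
    rcases le_or_gt θ 0 with h | h
    · left; exact ⟨hθ.1, h⟩
    · right
      rcases le_or_gt θ (2 * Real.pi) with h' | h'
      · left; exact ⟨h, h'⟩
      · right; exact ⟨h', by linarith [hθ.2]⟩
  refine (lintegral_mono_set hsub).trans_lt ?_
  refine (lintegral_union_le _ _ _).trans_lt ?_
  refine ENNReal.add_lt_top.2 ⟨by rw [← h1]; exact hint, ?_⟩
  refine (lintegral_union_le _ _ _).trans_lt ?_
  exact ENNReal.add_lt_top.2 ⟨hint, by rw [h2]; exact hint⟩

/-- the law of the directions is absolutely continuous -/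
theorem law_null (ν : Measure ℂ) [IsFiniteMeasure ν] {H : ℝ → ℝ≥0∞} (hm : Measurable H)
    (hper : ∀ θ, H (θ + 2 * Real.pi) = H θ)
    (hint : ∫⁻ θ in Ioc 0 (2 * Real.pi), H θ < ⊤)
    (hH : ∀ θ r : ℝ, 0 < r → ν {w : ℂ | |pr θ w| ≤ r} ≤ ENNReal.ofReal r * H θ)
    (R : ℝ) (hR : 0 < R) : ν {z : ℂ | ‖z‖ ≤ R ∧ H (Th z) = ⊤} = 0 := by
  have hpi := Real.pi_gt_three
  have h3 := three_periods hm hper hint
  set W : Set ℝ := Ioc (-(2 * Real.pi)) (4 * Real.pi) with hW
  set H' : ℝ → ℝ≥0∞ := W.indicator H with hH'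
  have hm' : Measurable H' := hm.indicator measurableSet_Ioc
  have hfin : ∫⁻ θ, H' θ < ⊤ := by
    rw [hH', lintegral_indicator measurableSet_Ioc]
    exact h3
  set σ : Measure ℝ := volume.withDensity (fun θ => ENNReal.ofReal R * H' θ) with hσ
  have hσfin : IsFiniteMeasure σ := by
    refine ⟨?_⟩
    rw [hσ, withDensity_apply _ MeasurableSet.univ, Measure.restrict_univ,
      lintegral_const_mul _ hm']
    exact ENNReal.mul_lt_top ENNReal.ofReal_lt_top hfin
  set τ : Measure ℝ := (ν.restrict {z : ℂ | ‖z‖ ≤ R}).map Th with hτ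
  have hτfin : IsFiniteMeasure τ := by
    rw [hτ]
    infer_instance
  set N : Set ℝ := {θ | H θ = ⊤} ∩ Icc (-(Real.pi / 2)) (3 * Real.pi / 2) with hN
  have hNm : MeasurableSet N := (hm (measurableSet_singleton ⊤)).inter measurableSet_Icc
  have hmR : MeasurableSet {z : ℂ | ‖z‖ ≤ R} := measurableSet_le measurable_norm measurable_const
  -- the two measures on small intervals
  have hball : ∀ x ∈ N, ∀ r : ℝ, 0 < r → r ≤ 1 →
      τ (Metric.closedBall x r) ≤ σ (Metric.closedBall x r) := by
    intro x hx r hr hr1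
    have hJ : MeasurableSet (Metric.closedBall x r) := Metric.isClosed_closedBall.measurableSet
    have hvol : volume (Metric.closedBall x r) = ENNReal.ofReal (2 * r) := Real.volume_closedBall x r
    have hpt : ∀ θ ∈ Metric.closedBall x r,
        τ (Metric.closedBall x r) ≤ ENNReal.ofReal (R * (2 * r)) * H' θ := by
      intro θ hθ
      have hθ' : |θ - x| ≤ r := by simpa [Real.dist_eq] using hθ
      have hθW : θ ∈ W := by
        have h1 := abs_le.1 hθ'
        have h2 := hx.2.1
        have h4 := hx.2.2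
        constructor <;> linarith [h1.1, h1.2]
      rw [hH', indicator_of_mem hθW, hτ, Measure.map_apply measurable_Th hJ,
        Measure.restrict_apply (measurable_Th hJ)]
      refine le_trans (measure_mono ?_) (hH θ (R * (2 * r)) (by positivity))
      rintro z ⟨hz1, hz2⟩
      have hz1' : |Th z - x| ≤ r := by simpa [Real.dist_eq] using hz1
      have hz2' : ‖z‖ ≤ R := hz2
      show |pr θ z| ≤ R * (2 * r)
      have h1 : |θ - Th z| ≤ 2 * r := by
        have h5 := abs_sub_le θ x (Th z)
        rw [abs_sub_comm x (Th z)] at h5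
        linarith
      calc |pr θ z| ≤ ‖z‖ * |θ - Th z| := pr_bound z θ
        _ ≤ R * (2 * r) := mul_le_mul hz2' h1 (abs_nonneg _) hR.le
    have hint2 : ENNReal.ofReal (2 * r) * τ (Metric.closedBall x r) ≤
        ENNReal.ofReal (2 * r) * σ (Metric.closedBall x r) := by
      calc ENNReal.ofReal (2 * r) * τ (Metric.closedBall x r)
          = ∫⁻ _ in Metric.closedBall x r, τ (Metric.closedBall x r) := by
            rw [setLIntegral_const, hvol, mul_comm]
        _ ≤ ∫⁻ θ in Metric.closedBall x r, ENNReal.ofReal (R * (2 * r)) * H' θ :=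
            setLIntegral_mono' hJ hpt
        _ = ENNReal.ofReal (2 * r) * σ (Metric.closedBall x r) := by
            rw [hσ, withDensity_apply _ hJ, lintegral_const_mul _ hm', lintegral_const_mul _ hm',
              mul_comm R, ENNReal.ofReal_mul (by positivity), mul_assoc]
    have h0 : ENNReal.ofReal (2 * r) ≠ 0 := by
      rw [Ne, ENNReal.ofReal_eq_zero, not_le]
      positivity
    exact (ENNReal.mul_le_mul_iff_right h0 ENNReal.ofReal_ne_top).1 hint2
  have hle : τ N ≤ σ N := by
    refine (Besicovitch.vitaliFamily τ).measure_le_of_frequently_le σ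
      Measure.AbsolutelyContinuous.rfl N (fun x hx => ?_)
    have h1 : ∀ᶠ r : ℝ in 𝓝[>] 0, τ (Metric.closedBall x r) ≤ σ (Metric.closedBall x r) := by
      filter_upwards [Ioc_mem_nhdsGT (zero_lt_one' ℝ)] with r hr
      exact hball x hx r hr.1 hr.2
    exact (Besicovitch.tendsto_filterAt τ x).frequently h1.frequently
  -- the right hand side vanishes
  have hσ0 : σ N = 0 := by
    have hvol0 : volume N = 0 := by
      have h1 := ae_lt_top hm' hfin.ne
      refine measure_mono_null ?_ (ae_iff.1 h1)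
      intro θ hθ
      have hθW : θ ∈ W := by
        have h2 := hθ.2.1
        have h4 := hθ.2.2
        constructor <;> linarith
      rw [mem_setOf_eq, hH', indicator_of_mem hθW, hθ.1]
      exact lt_irrefl _
    exact withDensity_absolutelyContinuous _ _ hvol0
  have hτ0 : τ N = 0 := le_antisymm (hle.trans hσ0.le) zero_le
  rw [hτ, Measure.map_apply measurable_Th hNm, Measure.restrict_apply (measurable_Th hNm)] at hτ0
  refine measure_mono_null ?_ hτ0
  rintro z ⟨hz1, hz2⟩
  exact ⟨⟨hz2, Th_mem z⟩, hz1⟩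

theorem dir : S_DIR1 → S_DIR := by
  intro hDIR μ _ s hs1 hs2 hen
  obtain ⟨H, hm, hper, hint, hH⟩ := hDIR μ s hs1 hs2 hen
  have hprob : IsProbabilityMeasure (dif μ) := by
    unfold dif
    exact Measure.isProbabilityMeasure_map (by fun_prop)
  have h0 := dif_zero μ (by linarith) hen
  have hnull : dif μ {z : ℂ | H (Th z) = ⊤} = 0 := by
    have h1 : {z : ℂ | H (Th z) = ⊤} ⊆ ⋃ n : ℕ, {z : ℂ | ‖z‖ ≤ (n : ℝ) + 1 ∧ H (Th z) = ⊤} := by
      intro z hz
      obtain ⟨n, hn⟩ := exists_nat_ge ‖z‖
      exact mem_iUnion.2 ⟨n, by linarith, hz⟩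
    refine measure_mono_null h1 (measure_iUnion_null fun n => ?_)
    exact law_null (dif μ) hm hper hint hH _ (by positivity)
  set A : ℕ → Set ℂ := fun n => {z | 1 / ((n : ℝ) + 1) ≤ ‖z‖ ∧
    H (Th z) ≤ ENNReal.ofReal ((n : ℝ) + 1)} with hA
  have hAm : ∀ n, MeasurableSet (A n) := fun n =>
    (measurableSet_le measurable_const measurable_norm).inter
      (measurableSet_le (hm.comp measurable_Th) measurable_const)
  have hunion : dif μ (⋃ n, A n) ≠ 0 := by
    intro hcon
    have h1 : (univ : Set ℂ) ⊆ {0} ∪ ({z : ℂ | H (Th z) = ⊤} ∪ ⋃ n, A n) := by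
      intro z _
      by_cases hz0 : z = 0
      · left; exact hz0
      right
      by_cases hzt : H (Th z) = ⊤
      · left; exact hzt
      right
      have hn0 : 0 < ‖z‖ := norm_pos_iff.2 hz0
      obtain ⟨n, hn⟩ := exists_nat_ge (max (1 / ‖z‖) (H (Th z)).toReal)
      have h2 : 1 / ‖z‖ ≤ n := (le_max_left _ _).trans hn
      have h3 : (H (Th z)).toReal ≤ n := (le_max_right _ _).trans hn
      refine mem_iUnion.2 ⟨n, ?_, ?_⟩
      · rw [div_le_iff₀ (by positivity)]
        rw [div_le_iff₀ hn0] at h2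
        nlinarith
      · rw [← ENNReal.ofReal_toReal hzt]
        exact ENNReal.ofReal_le_ofReal (by linarith)
    have h2 : dif μ univ ≤ 0 := by
      refine (measure_mono h1).trans ?_
      refine (measure_union_le _ _).trans ?_
      rw [h0, zero_add]
      refine (measure_union_le _ _).trans ?_
      rw [hnull, zero_add, hcon]
    rw [measure_univ] at h2
    exact absurd h2 (by norm_num)
  obtain ⟨n, hn⟩ := exists_measure_pos_of_not_measure_iUnion_null hunion
  refine ⟨A n, 1 / ((n : ℝ) + 1), (n : ℝ) + 1, hAm n, by positivity, by positivity, hn,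
    fun z hz => hz.1, fun z hz r hr => ?_⟩
  have hz0 : 0 < ‖z‖ := lt_of_lt_of_le (by positivity) hz.1
  have e : {w : ℂ | |(w * (starRingEnd ℂ) z).im| ≤ r * ‖z‖} = {w : ℂ | |pr (Th z) w| ≤ r} := by
    ext w
    rw [mem_setOf_eq, mem_setOf_eq, ← pr_Th, abs_mul, abs_norm, mul_comm r]
    exact mul_le_mul_iff_right₀ hz0
  rw [e]
  refine (hH (Th z) r hr).trans ?_
  rw [mul_comm ((n : ℝ) + 1), ENNReal.ofReal_mul hr.le]
  gcongr
  exact hz.2

end

end Pool.Agent.Y978.FA
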